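import Pool.Agent.Lib.MP_d81877_alZF.Orth

/-!
# MP_d81877_al, part D: the sum of the chain potentials is an elementary symmetric function

For an increasing set `X` of sites, `Theta^X` is the product of
`ε_x + ∑_{y ∈ X, y > x} f_y + pos_X(x) f_x`; here: the sum of `Theta^X` over the subsets `X` of `V`
with `m` elements is the elementary symmetric function of degree `m` in the
`θ_x = ε_x + ∑_{y ∈ V, y > x} f_y + pos_V(x) f_x`.  `th x` is multiplication by `ε_x`.
-/

namespace D81877ZL

open Finset D81877ZF

variable {ι : Type*} [LinearOrder ι] {K : Type*} [Field K]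

/-- the vacuum -/
def vac : Z ι K := fun A B => if A = ∅ ∧ B = ∅ then 1 else 0

/-- the pair `(Theta^X, e Theta^X)` of a list of sites in DEcreasing order -/
def ta : List ι → Z ι K × Z ι K
  | [] => (vac, 0)
  | x :: W =>
    (th x (ta W).1 + (W.length : K) • f x (ta W).1 + f x (th x (ta W).2),
     (ta W).1 + th x (ta W).2 + ((W.length + 1 : ℕ) : K) • f x (ta W).2)

/-- `θ_x` in the coordinates `ε`, `f` -/
def thO (V : Finset ι) (x : ι) : Module.End K (Z ι K) :=
  th x + ∑ y ∈ V.filter (fun y => x < y), f y + ((V.filter (fun y => y < x)).card : K) • f x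

/-- the product of the `θ_x`, `x ∈ A`, applied to the vacuum -/
def thA (V A : Finset ι) : Z ι K := (((A.sort (· ≥ ·)).map (thO V)).prod : Module.End K (Z ι K)) vac

/-- elementary symmetric function of the `θ_x` -/
def etaE (V : Finset ι) (m : ℕ) : Z ι K := ∑ A ∈ V.powersetCard m, thA V A

/-- the sum of the `Theta^X` -/
def AA (V : Finset ι) (m : ℕ) : Z ι K := ∑ X ∈ V.powersetCard m, (ta (X.sort (· ≥ ·))).1

/-- the sum of the `e Theta^X` -/
def aa (V : Finset ι) (m : ℕ) : Z ι K := ∑ X ∈ V.powersetCard m, (ta (X.sort (· ≥ ·))).2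

theorem sort_insert_max {x : ι} {X : Finset ι} (h : ∀ y ∈ X, y < x) :
    (insert x X).sort (· ≥ ·) = x :: X.sort (· ≥ ·) :=
  Finset.sort_insert _ (fun b hb => (h b hb).le) (fun hx => lt_irrefl x (h x hx))

theorem sum_powersetCard_insert {M : Type*} [AddCommMonoid M] {x : ι} {V : Finset ι}
    (hx : x ∉ V) (m : ℕ) (F : Finset ι → M) :
    ∑ X ∈ (insert x V).powersetCard (m + 1), F X =
      ∑ X ∈ V.powersetCard (m + 1), F X + ∑ X ∈ V.powersetCard m, F (insert x X) := by
  rw [powersetCard_succ_insert hx, sum_union, sum_image]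
  · intro X hX Y hY h
    have h1 : x ∉ X := fun h' => hx ((mem_powersetCard.1 hX).1 h')
    have h2 : x ∉ Y := fun h' => hx ((mem_powersetCard.1 hY).1 h')
    rw [← erase_insert h1, ← erase_insert h2, h]
  · rw [disjoint_left]
    intro X hX hX'
    obtain ⟨Y, _, rfl⟩ := mem_image.1 hX'
    exact hx ((mem_powersetCard.1 hX).1 (mem_insert_self _ _))

theorem AA_insert {x : ι} {V : Finset ι} (h : ∀ y ∈ V, y < x) (m : ℕ) :
    AA (K := K) (insert x V) (m + 1) = AA V (m + 1) + (th x (AA V m) + (m : K) • f x (AA V m)
      + f x (th x (aa V m))) := by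
  have hx : x ∉ V := fun hx => lt_irrefl x (h x hx)
  unfold AA aa
  rw [sum_powersetCard_insert hx]
  congr 1
  simp only [map_sum, smul_sum, ← sum_add_distrib]
  refine sum_congr rfl fun X hX => ?_
  obtain ⟨h1, h2⟩ := mem_powersetCard.1 hX
  rw [sort_insert_max (fun y hy => h y (h1 hy)), ta, length_sort, h2]

theorem aa_insert {x : ι} {V : Finset ι} (h : ∀ y ∈ V, y < x) (m : ℕ) :
    aa (K := K) (insert x V) (m + 1) = aa V (m + 1) + (AA V m + th x (aa V m)
      + ((m + 1 : ℕ) : K) • f x (aa V m)) := by
  have hx : x ∉ V := fun hx => lt_irrefl x (h x hx)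
  unfold AA aa
  rw [sum_powersetCard_insert hx]
  congr 1
  simp only [map_sum, smul_sum, ← sum_add_distrib]
  refine sum_congr rfl fun X hX => ?_
  obtain ⟨h1, h2⟩ := mem_powersetCard.1 hX
  rw [sort_insert_max (fun y hy => h y (h1 hy)), ta, length_sort, h2]

theorem AA_zero (V : Finset ι) : AA (K := K) V 0 = vac := by
  simp [AA, ta]

theorem aa_zero (V : Finset ι) : aa (K := K) V 0 = 0 := by
  simp [aa, ta]

theorem etaE_zero (V : Finset ι) : etaE (K := K) V 0 = vac := by
  simp [etaE, thA]

theorem thO_insert_max {x : ι} {V : Finset ι} (h : ∀ y ∈ V, y < x) :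
    (thO (insert x V) x : Module.End K (Z ι K)) = th x + (V.card : K) • f x := by
  unfold thO
  have h1 : (insert x V).filter (fun y => x < y) = ∅ := by
    rw [filter_eq_empty_iff]
    intro y hy hxy
    rcases mem_insert.1 hy with rfl | hy
    · exact lt_irrefl _ hxy
    · exact lt_asymm hxy (h y hy)
  have h2 : (insert x V).filter (fun y => y < x) = V := by
    ext y
    simp only [mem_filter, mem_insert]
    constructor
    · rintro ⟨rfl | hy, h3⟩
      · exact absurd h3 (lt_irrefl _)
      · exact hy
    · intro hy
      exact ⟨Or.inr hy, h y hy⟩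
  rw [h1, h2, sum_empty, add_zero]

theorem thO_insert_of_mem {x : ι} {V : Finset ι} (h : ∀ y ∈ V, y < x) {y : ι} (hy : y ∈ V) :
    (thO (insert x V) y : Module.End K (Z ι K)) = thO V y + f x := by
  unfold thO
  have hx : x ∉ V := fun hx => lt_irrefl x (h x hx)
  have h1 : (insert x V).filter (fun z => y < z) = insert x (V.filter (fun z => y < z)) := by
    rw [filter_insert, if_pos (h y hy)]
  have h2 : (insert x V).filter (fun z => z < y) = V.filter (fun z => z < y) := by
    rw [filter_insert, if_neg (lt_asymm (h y hy))]
  rw [h1, h2, sum_insert (fun h3 => hx (mem_filter.1 h3).1)]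
  abel

/-! ### the recursion for the elementary symmetric functions -/

theorem e_vac (V : Finset ι) : e V (vac : Z ι K) = 0 := by
  unfold e
  rw [LinearMap.sum_apply]
  refine sum_eq_zero fun x _ => ?_
  funext A B
  rw [d_apply]
  split_ifs with h
  · rfl
  · rw [vac, if_neg]
    · rfl
    · rintro ⟨h1, _⟩
      exact insert_ne_empty x A h1

theorem f_e (V : Finset ι) (x : ι) : Commute (f x : Module.End K (Z ι K)) (e V) := by
  unfold e
  exact Commute.sum_right _ _ _ fun y _ => f_d_comm x y

theorem e_th [CharP K 2] {V : Finset ι} {y : ι} (hy : y ∈ V) :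
    (e V : Module.End K (Z ι K)) * th y = th y * e V + 1 := by
  unfold e
  rw [← Finset.add_sum_erase V _ hy, add_mul, mul_add]
  have h1 : (d y : Module.End K (Z ι K)) * th y = th y * d y + 1 := by
    have h2 := d_th_same (K := K) y
    have h3 := end_add_self (K := K) (th y * d y : Module.End K (Z ι K))
    calc (d y : Module.End K (Z ι K)) * th y = (d y * th y + th y * d y) + th y * d y := by
          rw [add_assoc, h3, add_zero]
      _ = _ := by rw [h2, add_comm]
  have h4 : (∑ x ∈ V.erase y, d x) * (th y : Module.End K (Z ι K))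
      = th y * ∑ x ∈ V.erase y, d x := by
    apply (Commute.sum_left _ _ _ fun x hx => ?_ : Commute _ _)
    exact d_th_comm (mem_erase.mp hx).1
  rw [h1, h4]
  abel

theorem e_e [CharP K 2] (V : Finset ι) : (e V : Module.End K (Z ι K)) * e V = 0 := by
  induction V using Finset.induction_on with
  | empty => simp [e]
  | insert x V hx ih =>
    have h1 : (e (insert x V) : Module.End K (Z ι K)) = d x + e V := by
      unfold e; rw [sum_insert hx]
    have h2 : Commute (d x : Module.End K (Z ι K)) (e V) := by
      unfold e
      exact Commute.sum_right _ _ _ fun y _ => d_comm x y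
    rw [h1, add_mul, mul_add, mul_add, d_sq, ih, ← h2.eq, zero_add, add_zero, end_add_self]

theorem e_thO [CharP K 2] {V : Finset ι} {y : ι} (hy : y ∈ V) :
    (e V : Module.End K (Z ι K)) * thO V y = thO V y * e V + 1 := by
  have h1 : (e V : Module.End K (Z ι K)) * ∑ z ∈ V.filter (fun z => y < z), f z
      = (∑ z ∈ V.filter (fun z => y < z), f z) * e V :=
    (Commute.sum_right _ _ _ fun z _ => (f_e V z).symm : Commute _ _)
  have h2 : (e V : Module.End K (Z ι K)) * f y = f y * e V := (f_e V y).symm
  unfold thO
  rw [mul_add, mul_add, e_th hy, h1, mul_smul_comm, h2, add_mul, add_mul, smul_mul_assoc]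
  abel

/-- adding a last site -/
theorem prod_insert_max [CharP K 2] {x : ι} {V : Finset ι} (h : ∀ y ∈ V, y < x) (l : List ι)
    (hl : ∀ y ∈ l, y ∈ V) (w : Z ι K) :
    (l.map (thO (insert x V))).prod (w + f x (e V w)) =
      (l.map (thO V)).prod w + f x (e V ((l.map (thO V)).prod w)) := by
  induction l with
  | nil => simp
  | cons y l ih =>
    have hy : y ∈ V := hl y List.mem_cons_self
    rw [List.map_cons, List.map_cons, List.prod_cons, List.prod_cons, Module.End.mul_apply,
      Module.End.mul_apply, ih (fun z hz => hl z (List.mem_cons_of_mem _ hz)),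
      thO_insert_of_mem h hy]
    set u := (l.map (thO V)).prod w
    have h1 := LinearMap.congr_fun (e_thO (K := K) hy) u
    have h2 := LinearMap.congr_fun (f_sq (K := K) x) (e V u)
    have hxy : Commute (f x : Module.End K (Z ι K)) (thO V y) := by
      unfold thO
      exact ((f_th_comm x y).add_right (Commute.sum_right _ _ _ fun z _ => f_comm x z)).add_right
        ((f_comm x y).smul_right _)
    have h3 := LinearMap.congr_fun hxy.eq (e V u)
    simp only [Module.End.mul_apply, LinearMap.add_apply, Module.End.one_apply,
      LinearMap.zero_apply, map_add] at h1 h2 h3 ⊢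
    rw [h1, map_add, h2, ← h3]
    abel

theorem e_insert {x : ι} {V : Finset ι} (hx : x ∉ V) :
    (e (insert x V) : Module.End K (Z ι K)) = d x + e V := by
  unfold e; rw [sum_insert hx]

theorem d_thA {x : ι} {V A : Finset ι} (hx : x ∉ V) (hA : A ⊆ V) :
    d x (thA V A : Z ι K) = 0 := by
  unfold thA
  have key : ∀ l : List ι, (∀ y ∈ l, y ∈ V) →
      d x ((l.map (thO V)).prod (vac : Z ι K)) = 0 := by
    intro l hl
    induction l with
    | nil =>
      funext A B
      rw [List.map_nil, List.prod_nil, Module.End.one_apply, d_apply]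
      split_ifs with h
      · rfl
      · rw [vac, if_neg]
        · rfl
        · rintro ⟨h1, _⟩
          exact insert_ne_empty x A h1
    | cons y l ih =>
      have hy : y ∈ V := hl y List.mem_cons_self
      have hxy : x ≠ y := fun h => hx (h ▸ hy)
      have hc : Commute (d x : Module.End K (Z ι K)) (thO V y) := by
        unfold thO
        exact ((d_th_comm hxy).add_right (Commute.sum_right _ _ _
          fun z _ => (f_d_comm z x).symm)).add_right ((f_d_comm y x).symm.smul_right _)
      rw [List.map_cons, List.prod_cons, Module.End.mul_apply]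
      have h3 := LinearMap.congr_fun hc.eq ((l.map (thO V)).prod (vac : Z ι K))
      simp only [Module.End.mul_apply] at h3
      rw [h3, ih (fun z hz => hl z (List.mem_cons_of_mem _ hz)), map_zero]
  exact key _ (fun y hy => hA ((mem_sort _).1 hy))

theorem d_etaE {x : ι} {V : Finset ι} (hx : x ∉ V) (m : ℕ) : d x (etaE V m : Z ι K) = 0 := by
  unfold etaE
  rw [map_sum]
  exact sum_eq_zero fun A hA => d_thA hx (mem_powersetCard.1 hA).1

theorem etaE_insert [CharP K 2] {x : ι} {V : Finset ι} (h : ∀ y ∈ V, y < x) (m : ℕ) :
    etaE (K := K) (insert x V) (m + 1) = etaE V (m + 1) + f x (e V (etaE V (m + 1)))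
      + (th x (etaE V m) + (V.card : K) • f x (etaE V m) + f x (th x (e V (etaE V m)))) := by
  have hx : x ∉ V := fun hx => lt_irrefl x (h x hx)
  have key : ∀ A : Finset ι, A ⊆ V → thA (insert x V) A =
      (thA V A + f x (e V (thA V A)) : Z ι K) := by
    intro A hA
    have h1 := prod_insert_max (K := K) h (A.sort (· ≥ ·))
      (fun y hy => hA ((mem_sort _).1 hy)) vac
    rw [e_vac, map_zero, add_zero] at h1
    exact h1
  unfold etaE
  rw [sum_powersetCard_insert hx]
  simp only [map_sum, smul_sum, ← sum_add_distrib]
  congr 1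
  · exact sum_congr rfl fun A hA => key A (mem_powersetCard.1 hA).1
  · refine sum_congr rfl fun A hA => ?_
    have hAV := (mem_powersetCard.1 hA).1
    have h1 : thA (insert x V) (insert x A) =
        thO (insert x V) x (thA (insert x V) A : Z ι K) := by
      unfold thA
      rw [sort_insert_max (fun y hy => h y (hAV hy)), List.map_cons, List.prod_cons,
        Module.End.mul_apply]
    have h2 := LinearMap.congr_fun (f_sq (K := K) x) (e V (thA V A))
    have h3 := LinearMap.congr_fun (f_th_comm (K := K) x x).eq (e V (thA V A))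
    simp only [Module.End.mul_apply, LinearMap.zero_apply] at h2 h3
    rw [h1, key A hAV, thO_insert_max h, LinearMap.add_apply, LinearMap.smul_apply, map_add,
      map_add, h2, add_zero, h3]
    abel

theorem cast_idem [CharP K 2] (n : ℕ) : (n : K) * n = n := by
  rcases Nat.even_or_odd n with h | h
  · rw [(CharP.cast_eq_zero_iff K 2 n).2 h.two_dvd, zero_mul]
  · obtain ⟨k, rfl⟩ := h
    have h2 : (2 : K) = 0 := CharTwo.two_eq_zero
    push_cast
    linear_combination (2 * (k : K) ^ 2 + k) * h2

theorem main_aux [CharP K 2] (V : Finset ι) : ∀ m : ℕ,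
    AA (K := K) V m = etaE V m ∧ aa (K := K) V m = e V (etaE V m) ∧
      e V (etaE (K := K) V (m + 1)) = ((V.card + m : ℕ) : K) • etaE V m := by
  induction V using Finset.induction_on_max with
  | empty =>
    intro m
    have h1 : etaE (K := K) (∅ : Finset ι) (m + 1) = 0 := by
      unfold etaE
      rw [powersetCard_eq_empty.2 (by simp), sum_empty]
    have hAe : AA (K := K) (∅ : Finset ι) (m + 1) = 0 := by
      unfold AA
      rw [powersetCard_eq_empty.2 (by simp), sum_empty]
    have hae : aa (K := K) (∅ : Finset ι) (m + 1) = 0 := by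
      unfold aa
      rw [powersetCard_eq_empty.2 (by simp), sum_empty]
    have he0 : (e (∅ : Finset ι) : Module.End K (Z ι K)) = 0 := by simp [e]
    cases m with
    | zero =>
      refine ⟨by rw [AA_zero, etaE_zero], by rw [aa_zero, etaE_zero, e_vac], ?_⟩
      rw [he0]; simp
    | succ m =>
      have h2 : etaE (K := K) (∅ : Finset ι) (m + 1) = 0 := by
        unfold etaE
        rw [powersetCard_eq_empty.2 (by simp), sum_empty]
      refine ⟨?_, ?_, ?_⟩
      · rw [h2]; unfold AA; rw [powersetCard_eq_empty.2 (by simp), sum_empty]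
      · rw [h2, map_zero]; unfold aa; rw [powersetCard_eq_empty.2 (by simp), sum_empty]
      · rw [he0, h2]; simp
  | insert x V h ih =>
    have hx : x ∉ V := fun hx => lt_irrefl x (h x hx)
    have htwo : (2 : K) = 0 := CharTwo.two_eq_zero
    have hsum : ∀ u : Z ι K, d x u = 0 → e (insert x V) u = e V u := by
      intro u hu
      rw [e_insert hx, LinearMap.add_apply, hu, zero_add]
    have hee : ∀ u : Z ι K, e V (e V u) = 0 := by
      intro u
      have := LinearMap.congr_fun (e_e (K := K) V) u
      simpa [Module.End.mul_apply] using this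
    have hzero : ∀ k, ((V.card + k : ℕ) : K) • e V (etaE (K := K) V k) = 0 := by
      intro k
      rw [← map_smul, ← (ih k).2.2, hee]
    have hfe : ∀ u : Z ι K, e (insert x V) (f x u) = f x (e (insert x V) u) := by
      intro u
      have := LinearMap.congr_fun (f_e (K := K) (insert x V) x).eq u
      simpa [Module.End.mul_apply] using this.symm
    have hth : ∀ u : Z ι K, e (insert x V) (th x u) = th x (e (insert x V) u) + u := by
      intro u
      have := LinearMap.congr_fun (e_th (K := K) (mem_insert_self x V)) u
      simpa [Module.End.mul_apply] using this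
    have hdee : ∀ k, d x (e V (etaE (K := K) V k)) = 0 := by
      intro k
      cases k with
      | zero => rw [etaE_zero, e_vac, map_zero]
      | succ k => rw [(ih k).2.2, map_smul, d_etaE hx, smul_zero]
    have he' : ∀ k, e (insert x V) (etaE (K := K) (insert x V) (k + 1)) =
        e V (etaE V (k + 1)) + etaE V k + th x (e V (etaE V k)) + f x (e V (etaE V k))
          + (V.card : K) • f x (e V (etaE V k)) := by
      intro k
      rw [etaE_insert h]
      simp only [map_add, map_smul, hfe, hth, hsum _ (d_etaE hx _), hsum _ (hdee _), hee,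
        map_zero, zero_add, add_zero]
      abel
    have hcard : (insert x V).card = V.card + 1 := card_insert_of_notMem hx
    have main : ∀ m, AA (K := K) (insert x V) m = etaE (insert x V) m ∧
        aa (K := K) (insert x V) m = e (insert x V) (etaE (insert x V) m) := by
      intro m
      cases m with
      | zero => exact ⟨by rw [AA_zero, etaE_zero], by rw [aa_zero, etaE_zero, e_vac]⟩
      | succ m =>
        obtain ⟨i1, i2, i3⟩ := ih m
        obtain ⟨j1, j2, j3⟩ := ih (m + 1)
        refine ⟨?_, ?_⟩
        · rw [AA_insert h, etaE_insert h, j1, i1, i2, i3, map_smul]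
          push_cast
          match_scalars <;> grind
        · rw [aa_insert h, he', j2, i1, i2]
          have hz := congrArg (f x) (hzero m)
          rw [map_smul, map_zero] at hz
          refine sub_eq_zero.mp (Eq.trans ?_ hz)
          push_cast
          match_scalars <;> grind
    intro m
    refine ⟨(main m).1, (main m).2, ?_⟩
    rw [he', hcard]
    cases m with
    | zero =>
      rw [etaE_zero, etaE_zero, e_vac, map_zero, map_zero, smul_zero, (ih 0).2.2, etaE_zero]
      push_cast
      match_scalars; grind
    | succ k =>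
      have hz := congrArg (fun u => f x (th x u)) (hzero k)
      simp only [map_smul, map_zero] at hz
      have hid := cast_idem (K := K) (V.card + k)
      rw [etaE_insert h, (ih (k + 1)).2.2, (ih k).2.2]
      simp only [map_smul]
      push_cast at hz hid ⊢
      refine sub_eq_zero.mp (Eq.trans ?_ hz)
      match_scalars <;> grind

/-- the sum of the `Theta^X` is the elementary symmetric function of the `θ_x` -/
theorem AA_eq [CharP K 2] (V : Finset ι) (m : ℕ) : AA (K := K) V m = etaE V m :=
  (main_aux V m).1

/-- the sum of the `e Theta^X` -/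
theorem aa_eq [CharP K 2] (V : Finset ι) (m : ℕ) :
    aa (K := K) V (m + 1) = ((V.card + m : ℕ) : K) • etaE V m := by
  rw [(main_aux V (m + 1)).2.1, (main_aux V m).2.2]

/-- for an even number of sites the sum of the `e Theta^X`, `|X| = 2b+2`, is the elementary
symmetric function of degree `2b+1` -/
theorem aa_even [CharP K 2] (V : Finset ι) (hV : Even V.card) (b : ℕ) :
    aa (K := K) V (2 * b + 2) = etaE V (2 * b + 1) := by
  rw [aa_eq]
  have : ((V.card + (2 * b + 1) : ℕ) : K) = 1 := by
    obtain ⟨k, hk⟩ := hV
    have h2 : (2 : K) = 0 := CharTwo.two_eq_zero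
    rw [hk]
    push_cast
    linear_combination ((k : K) + b) * h2
  rw [this, one_smul]

end D81877ZL
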