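import Pool.Agent.Lib.MP_d81877_alZL.InstE
import Pool.Agent.Lib.MP_d81877_alZS.Inst

/-!
# MP_d81877_al, part D: the sum of the chains of the concrete chain calculus

`su (clZ ι K).aw V n = aa V n`, and for `V` even and `n = 2 b + 2` this is the elementary symmetric
function `etaE V (2 b + 1)` of the `θ_x`.
-/

namespace D81877ZL

open Finset D81877ZF D81877M D81877ZS D81877Ch

variable {ι : Type*} [LinearOrder ι] {K : Type*} [Field K]

theorem sort_reverse (X : Finset ι) : (X.sort (· ≤ ·)).reverse = X.sort (· ≥ ·) := by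
  refine List.Perm.eq_of_pairwise (le := (· ≥ ·)) ?_ ?_ (X.pairwise_sort (· ≥ ·)) ?_
  · intro a b _ _ h1 h2
    exact le_antisymm h2 h1
  · rw [List.pairwise_reverse]
    exact X.pairwise_sort (· ≤ ·)
  · exact (List.reverse_perm _).trans ((sort_perm_toList X (· ≤ ·)).trans
      (sort_perm_toList X (· ≥ ·)).symm)

variable [Fintype ι] [CharP K 2]

theorem tw_aw_eq (W : List ι) (hW : W.Pairwise (fun x y => x < y)) :
    (clZ ι K).tw W = (ta W.reverse).1 ∧ (clZ ι K).aw W = (ta W.reverse).2 := by
  induction W using List.reverseRecOn with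
  | nil => exact ⟨rfl, rfl⟩
  | append_singleton W x ih =>
    have hx : ∀ y ∈ W, y < x := fun y hy =>
      (List.pairwise_append.1 hW).2.2 y hy x (List.mem_singleton_self x)
    obtain ⟨i1, i2⟩ := ih (List.pairwise_append.1 hW).1
    have h := rcZ (ι := ι) (K := K)
    have hn : ∀ (n : ℕ) (u : Z ι K), ((n : AF ι K) * AF.f x) • u = (n : K) • f x u := by
      intro n u
      rw [← nsmul_eq_mul, smul_assoc, AF.f_smul, ← Nat.cast_smul_eq_nsmul K]
    have hn1 : ∀ (n : ℕ) (u : Z ι K),
        (((n : AF ι K) + 1) * AF.f x) • u = ((n + 1 : ℕ) : K) • f x u := by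
      intro n u
      rw [← hn (n + 1) u, Nat.cast_add, Nat.cast_one]
    refine ⟨?_, ?_⟩
    · rw [h.tx W x (List.pairwise_append.1 hW).1 hx, i1, i2, List.reverse_append,
        List.reverse_singleton, List.singleton_append, ta, hn, AF.f_smul, List.length_reverse]
      rfl
    · rw [h.ax W x (List.pairwise_append.1 hW).1 hx, i1, i2, List.reverse_append,
        List.reverse_singleton, List.singleton_append, ta, hn1, List.length_reverse]
      rfl

theorem su_aw_eq (V : Finset ι) (n : ℕ) : su (clZ ι K).aw V n = aa V n := by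
  unfold su aa
  refine sum_congr rfl fun X _ => ?_
  rw [(tw_aw_eq _ (sort_pairwise X)).2, sort_reverse]

theorem su_tw_eq (V : Finset ι) (n : ℕ) : su (clZ ι K).tw V n = AA V n := by
  unfold su AA
  refine sum_congr rfl fun X _ => ?_
  rw [(tw_aw_eq _ (sort_pairwise X)).1, sort_reverse]

theorem su_aw_even {V : Finset ι} (hV : Even V.card) (b : ℕ) :
    su (clZ ι K).aw V (2 * b + 2) = etaE V (2 * b + 1) := by
  rw [su_aw_eq, aa_even V hV b]

end D81877ZL
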