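import Pool.Agent.Lib.MP_d81877_alZL.Link
import Pool.Agent.Lib.MP_d81877_alM.Defs

/-!
# MP_d81877_al, part D: the chain recursion with the operators `EE V x` on increasing chains

For an increasing chain the operator `EE V x` of the last site acts as multiplication by `ε_x`,
so every solution of the recursion of the chain calculus agrees there with `ta`.
-/

namespace D81877ZL

open Finset D81877ZF D81877M

variable {ι : Type*} [LinearOrder ι] {K : Type*} [Field K]

theorem EE_eq_th {V : Finset ι} {x : ι} {u : Z ι K} (h : ∀ y ∈ V, x < y → d y u = 0) :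
    EE V x u = th x u := by
  unfold EE
  rw [LinearMap.add_apply, Module.End.mul_apply, LinearMap.sum_apply]
  have h1 : ∑ y ∈ V.filter (fun y => x < y), (f y * d y : Module.End K (Z ι K)) u = 0 := by
    refine sum_eq_zero fun y hy => ?_
    obtain ⟨h2, h3⟩ := mem_filter.1 hy
    rw [Module.End.mul_apply, h y h2 h3, map_zero]
  rw [h1, map_zero, add_zero]

theorem d_vac (y : ι) : d y (vac : Z ι K) = 0 := by
  funext A B
  rw [d_apply]
  split_ifs with h
  · rfl
  · rw [vac, if_neg]
    · rfl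
    · rintro ⟨h1, _⟩
      exact insert_ne_empty y A h1

theorem d_ta (W : List ι) (y : ι) (hy : y ∉ W) :
    d y (ta W : Z ι K × Z ι K).1 = 0 ∧ d y (ta W : Z ι K × Z ι K).2 = 0 := by
  induction W with
  | nil => exact ⟨d_vac y, map_zero _⟩
  | cons x W ih =>
    have hyx : y ≠ x := fun h => hy (h ▸ List.mem_cons_self)
    obtain ⟨h1, h2⟩ := ih (fun h => hy (List.mem_cons_of_mem _ h))
    have c1 : ∀ u : Z ι K, d y (th x u) = th x (d y u) := fun u =>
      LinearMap.congr_fun (d_th_comm (K := K) hyx).eq u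
    have c2 : ∀ u : Z ι K, d y (f x u) = f x (d y u) := fun u =>
      (LinearMap.congr_fun (f_d_comm (K := K) x y).eq u).symm
    simp only [ta, map_add, map_smul, c1, c2, h1, h2, map_zero, smul_zero, add_zero]
    exact ⟨trivial, trivial⟩

/-- every solution of the chain recursion with `EE V x` agrees with `ta` on increasing chains
(lists in decreasing order) -/
theorem eq_ta {V : Finset ι} (t a : List ι → Z ι K) (t0 : t [] = vac) (a0 : a [] = 0)
    (ht : ∀ x W, t (x :: W) = EE V x (t W) + (W.length : K) • f x (t W) + f x (EE V x (a W)))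
    (ha : ∀ x W, a (x :: W) = t W + EE V x (a W) + ((W.length : K) + 1) • f x (a W))
    (W : List ι) (hW : W.Pairwise (fun x y => y < x)) (hV : ∀ x ∈ W, x ∈ V) :
    t W = (ta W).1 ∧ a W = (ta W).2 := by
  induction W with
  | nil => exact ⟨t0, a0⟩
  | cons x W ih =>
    obtain ⟨h1, h2⟩ := List.pairwise_cons.1 hW
    obtain ⟨i1, i2⟩ := ih h2 (fun y hy => hV y (List.mem_cons_of_mem _ hy))
    have h3 : ∀ y ∈ V, x < y → y ∉ W := fun y _ hxy hy => lt_asymm hxy (h1 y hy)
    have e1 : EE V x (ta W : Z ι K × Z ι K).1 = th x (ta W).1 :=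
      EE_eq_th fun y hy hxy => (d_ta W y (h3 y hy hxy)).1
    have e2 : EE V x (ta W : Z ι K × Z ι K).2 = th x (ta W).2 :=
      EE_eq_th fun y hy hxy => (d_ta W y (h3 y hy hxy)).2
    refine ⟨?_, ?_⟩
    · rw [ht, i1, i2, e1, e2]; rfl
    · rw [ha, i1, i2, e2]
      simp only [ta, Nat.cast_add, Nat.cast_one]

/-- the same for the sorted list of a finite set -/
theorem eq_ta_sort {V : Finset ι} (t a : List ι → Z ι K) (t0 : t [] = vac) (a0 : a [] = 0)
    (ht : ∀ x W, t (x :: W) = EE V x (t W) + (W.length : K) • f x (t W) + f x (EE V x (a W)))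
    (ha : ∀ x W, a (x :: W) = t W + EE V x (a W) + ((W.length : K) + 1) • f x (a W))
    {X : Finset ι} (hX : X ⊆ V) :
    t (X.sort (· ≥ ·)) = (ta (X.sort (· ≥ ·))).1 ∧
      a (X.sort (· ≥ ·)) = (ta (X.sort (· ≥ ·))).2 := by
  refine eq_ta t a t0 a0 ht ha _ ?_ (fun x hx => hX ((mem_sort _).1 hx))
  have h1 := X.pairwise_sort (· ≥ ·)
  have h2 := X.sort_nodup (· ≥ ·)
  exact (h1.and h2).imp fun h => lt_of_le_of_ne h.1 (Ne.symm h.2)

/-- the sum over the subsets of an even set of sites -/
theorem sum_a_eq [CharP K 2] {V : Finset ι} (t a : List ι → Z ι K) (t0 : t [] = vac)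
    (a0 : a [] = 0)
    (ht : ∀ x W, t (x :: W) = EE V x (t W) + (W.length : K) • f x (t W) + f x (EE V x (a W)))
    (ha : ∀ x W, a (x :: W) = t W + EE V x (a W) + ((W.length : K) + 1) • f x (a W))
    (hV : Even V.card) (b : ℕ) :
    ∑ X ∈ V.powersetCard (2 * b + 2), a (X.sort (· ≥ ·)) = etaE V (2 * b + 1) := by
  rw [← aa_even V hV b, aa]
  exact sum_congr rfl fun X hX => (eq_ta_sort t a t0 a0 ht ha (mem_powersetCard.1 hX).1).2

end D81877ZL
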